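import Mathlib

/-! Subtask RT-3 of helper685 (MP_7c4fde_an): compactness lemma for truncated polynomial
division. -/

namespace Pool.Agent.W347.RT

open Filter Topology

/-- Exact division by a sequence with a nonzero term of index at most `m0`. -/
theorem exact_division (m0 h : ℕ) (Λ : ℂ) (y : ℕ → ℂ) (hy : ∃ k, k ≤ m0 ∧ y k ≠ 0) :
    ∃ p : ℕ → ℂ, (∀ s, s < h → p s = 0) ∧
      ∀ n, ∑ s ∈ Finset.range (n + 1), p s * y (n - s) = if n = m0 + h then Λ else 0 := by
  classical
  have hex : ∃ k, y k ≠ 0 := by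
    obtain ⟨k, -, hk⟩ := hy
    exact ⟨k, hk⟩
  set k0 := Nat.find hex with hk0
  have hk0' : y k0 ≠ 0 := Nat.find_spec hex
  have hmin : ∀ k, k < k0 → y k = 0 := fun k hk => by
    by_contra hne
    exact Nat.find_min hex hk hne
  have hk0m : k0 ≤ m0 := by
    obtain ⟨k, hk, hk'⟩ := hy
    exact (Nat.find_min' hex hk').trans hk
  set u : PowerSeries ℂ := PowerSeries.mk fun n => y (n + k0) with hu
  have hfac : PowerSeries.mk y = PowerSeries.X ^ k0 * u := by
    ext n
    rw [PowerSeries.coeff_mk, PowerSeries.coeff_X_pow_mul']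
    split_ifs with hle
    · rw [hu, PowerSeries.coeff_mk, Nat.sub_add_cancel hle]
    · exact hmin n (not_le.mp hle)
  have hu0 : PowerSeries.constantCoeff u ≠ 0 := by
    rw [hu, ← PowerSeries.coeff_zero_eq_constantCoeff_apply, PowerSeries.coeff_mk, zero_add]
    exact hk0'
  set q : PowerSeries ℂ := PowerSeries.X ^ (m0 + h - k0) * (PowerSeries.C Λ * u⁻¹) with hq
  refine ⟨fun s => PowerSeries.coeff s q, ?_, ?_⟩
  · intro s hs
    show PowerSeries.coeff s q = 0
    rw [hq, PowerSeries.coeff_X_pow_mul', if_neg]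
    omega
  · intro n
    have h1 : ∑ s ∈ Finset.range (n + 1), PowerSeries.coeff s q * y (n - s) =
        PowerSeries.coeff n (q * PowerSeries.mk y) := by
      rw [PowerSeries.coeff_mul, Finset.Nat.sum_antidiagonal_eq_sum_range_succ
        (fun i j => PowerSeries.coeff i q * PowerSeries.coeff j (PowerSeries.mk y))]
      simp only [PowerSeries.coeff_mk]
    have h2 : q * PowerSeries.mk y = PowerSeries.C Λ * PowerSeries.X ^ (m0 + h) := by
      rw [hfac, hq]
      have h3 : u⁻¹ * u = 1 := PowerSeries.inv_mul_cancel u hu0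
      calc PowerSeries.X ^ (m0 + h - k0) * (PowerSeries.C Λ * u⁻¹) * (PowerSeries.X ^ k0 * u)
          = PowerSeries.C Λ * (PowerSeries.X ^ (m0 + h - k0) * PowerSeries.X ^ k0) *
              (u⁻¹ * u) := by ring
        _ = PowerSeries.C Λ * PowerSeries.X ^ (m0 + h) := by
            rw [h3, mul_one, ← pow_add]
            congr 2
            omega
    rw [h1, h2, PowerSeries.coeff_C_mul, PowerSeries.coeff_X_pow]
    split_ifs <;> simp

/-- Extension by zero. -/
noncomputable def ext0 (m : ℕ) (z : Fin (m + 1) → ℂ) (n : ℕ) : ℂ :=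
  if h : n < m + 1 then z ⟨n, h⟩ else 0

theorem continuous_ext0 (m n : ℕ) : Continuous fun z : Fin (m + 1) → ℂ => ext0 m z n := by
  unfold ext0
  split_ifs with h
  · exact continuous_apply _
  · exact continuous_const

theorem poly_compact (m0 h m : ℕ) (hm : m0 + h ≤ m) (Y η ε : ℝ) (Λ : ℂ) (hη : 0 < η)
    (hε : 0 < ε) : ∃ P : ℝ, 0 ≤ P ∧ ∀ y : ℕ → ℂ,
      ∑ k ∈ Finset.range (m + 1), ‖y k‖ ≤ Y → η ≤ ∑ k ∈ Finset.range (m0 + 1), ‖y k‖ →
      ∃ p : ℕ → ℂ, (∀ s, s < h → p s = 0) ∧ ∑ s ∈ Finset.range (m + 1), ‖p s‖ ≤ P ∧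
        ∑ n ∈ Finset.range (m + 1),
          ‖∑ s ∈ Finset.range (n + 1), p s * y (n - s) - (if n = m0 + h then Λ else 0)‖ ≤ ε := by
  classical
  set K : Set (Fin (m + 1) → ℂ) := {z | ∑ k ∈ Finset.range (m + 1), ‖ext0 m z k‖ ≤ Y ∧
    η ≤ ∑ k ∈ Finset.range (m0 + 1), ‖ext0 m z k‖} with hK
  have hKclosed : IsClosed K := by
    apply IsClosed.inter
    · exact isClosed_le (continuous_finset_sum _ fun k _ => (continuous_ext0 m k).norm)
        continuous_const
    · exact isClosed_le continuous_const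
        (continuous_finset_sum _ fun k _ => (continuous_ext0 m k).norm)
  have hKbdd : K ⊆ Metric.closedBall 0 Y := by
    rintro z ⟨hz, hz2⟩
    have hY : 0 ≤ Y := (Finset.sum_nonneg fun _ _ => norm_nonneg _).trans hz
    rw [mem_closedBall_zero_iff, pi_norm_le_iff_of_nonneg hY]
    intro i
    have h1 : z i = ext0 m z i := by
      unfold ext0
      rw [dif_pos i.2]
    rw [h1]
    exact (Finset.single_le_sum (f := fun k => ‖ext0 m z k‖) (fun _ _ => norm_nonneg _)
      (Finset.mem_range.mpr i.2)).trans hz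
  have hKcomp : IsCompact K :=
    (isCompact_closedBall (0 : Fin (m + 1) → ℂ) Y).of_isClosed_subset hKclosed hKbdd
  have key : ∃ P : ℝ, 0 ≤ P ∧ ∀ z ∈ K, ∃ p : ℕ → ℂ, (∀ s, s < h → p s = 0) ∧
      ∑ s ∈ Finset.range (m + 1), ‖p s‖ ≤ P ∧
        ∑ n ∈ Finset.range (m + 1), ‖∑ s ∈ Finset.range (n + 1), p s * ext0 m z (n - s) -
          (if n = m0 + h then Λ else 0)‖ ≤ ε := by
    refine hKcomp.induction_on (p := fun A => ∃ P : ℝ, 0 ≤ P ∧ ∀ z ∈ A, ∃ p : ℕ → ℂ,
      (∀ s, s < h → p s = 0) ∧ ∑ s ∈ Finset.range (m + 1), ‖p s‖ ≤ P ∧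
        ∑ n ∈ Finset.range (m + 1), ‖∑ s ∈ Finset.range (n + 1), p s * ext0 m z (n - s) -
          (if n = m0 + h then Λ else 0)‖ ≤ ε) ?_ ?_ ?_ ?_
    · exact ⟨0, le_rfl, fun z hz => absurd hz (Set.notMem_empty z)⟩
    · rintro A B hAB ⟨P, hP, hB⟩
      exact ⟨P, hP, fun z hz => hB z (hAB hz)⟩
    · rintro A B ⟨P, hP, hA⟩ ⟨Q, hQ, hB⟩
      refine ⟨max P Q, le_max_of_le_left hP, ?_⟩
      rintro z (hz | hz)
      · obtain ⟨p, h1, h2, h3⟩ := hA z hz
        exact ⟨p, h1, h2.trans (le_max_left _ _), h3⟩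
      · obtain ⟨p, h1, h2, h3⟩ := hB z hz
        exact ⟨p, h1, h2.trans (le_max_right _ _), h3⟩
    · intro z hz
      have hk : ∃ k, k ≤ m0 ∧ ext0 m z k ≠ 0 := by
        by_contra hcon
        push Not at hcon
        have : ∑ k ∈ Finset.range (m0 + 1), ‖ext0 m z k‖ = 0 := by
          apply Finset.sum_eq_zero
          intro k hk
          rw [hcon k (Nat.lt_succ_iff.mp (Finset.mem_range.mp hk)), norm_zero]
        have h2 := hz.2
        rw [this] at h2
        exact absurd h2 (not_le.mpr hη)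
      obtain ⟨p, hp0, hp⟩ := exact_division m0 h Λ (ext0 m z) hk
      have hcont : Continuous fun w : Fin (m + 1) → ℂ => ∑ n ∈ Finset.range (m + 1),
          ‖∑ s ∈ Finset.range (n + 1), p s * ext0 m w (n - s) -
            (if n = m0 + h then Λ else 0)‖ := by
        refine continuous_finset_sum _ fun n _ => Continuous.norm ?_
        refine Continuous.sub ?_ continuous_const
        exact continuous_finset_sum _ fun s _ => continuous_const.mul (continuous_ext0 m _)
      have hzero : ∑ n ∈ Finset.range (m + 1),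
          ‖∑ s ∈ Finset.range (n + 1), p s * ext0 m z (n - s) -
            (if n = m0 + h then Λ else 0)‖ < ε := by
        rw [Finset.sum_eq_zero]
        · exact hε
        · intro n _
          rw [hp n, sub_self, norm_zero]
      refine ⟨{w | ∑ n ∈ Finset.range (m + 1),
          ‖∑ s ∈ Finset.range (n + 1), p s * ext0 m w (n - s) -
            (if n = m0 + h then Λ else 0)‖ < ε}, ?_, ?_⟩
      · exact mem_nhdsWithin_of_mem_nhds ((isOpen_lt hcont continuous_const).mem_nhds hzero)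
      · exact ⟨∑ s ∈ Finset.range (m + 1), ‖p s‖, Finset.sum_nonneg fun _ _ => norm_nonneg _,
          fun w hw => ⟨p, hp0, le_rfl, le_of_lt hw⟩⟩
  obtain ⟨P, hP, hall⟩ := key
  refine ⟨P, hP, fun y hy1 hy2 => ?_⟩
  have hext : ∀ k, k < m + 1 → ext0 m (fun i : Fin (m + 1) => y i) k = y k := by
    intro k hk
    unfold ext0
    rw [dif_pos hk]
  obtain ⟨p, h1, h2, h3⟩ := hall (fun i : Fin (m + 1) => y i) (by
    refine ⟨?_, ?_⟩
    · rw [Finset.sum_congr rfl fun k hk => by rw [hext k (Finset.mem_range.mp hk)]]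
      exact hy1
    · rw [Finset.sum_congr rfl fun k hk => by
        rw [hext k (by have := Finset.mem_range.mp hk; omega)]]
      exact hy2)
  refine ⟨p, h1, h2, ?_⟩
  refine le_of_eq_of_le ?_ h3
  refine Finset.sum_congr rfl fun n hn => ?_
  congr 2
  refine Finset.sum_congr rfl fun s _ => ?_
  rw [hext (n - s) (by have := Finset.mem_range.mp hn; omega)]

end Pool.Agent.W347.RT
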