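import Mathlib

/-! Subtask RT-2 of helper685 (MP_7c4fde_an): rank-one perturbations of an operator whose powers
decrease superexponentially. -/

namespace Pool.Agent.W347.RT

open Filter Topology

/-- The scalar comparison series. -/
theorem summable_scalar (C : ℝ) (r : ℝ) :
    Summable fun n : ℕ => r ^ (n + 1) * (C / 2 ^ (n ^ 2)) := by
  rcases eq_or_ne r 0 with rfl | hr
  · simp
  rcases eq_or_ne C 0 with rfl | hC
  · simp
  apply summable_of_ratio_test_tendsto_lt_one (l := 0) (by norm_num)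
  · filter_upwards with n
    positivity
  · have h1 : (fun n : ℕ => ‖r ^ (n + 1 + 1) * (C / 2 ^ ((n + 1) ^ 2))‖ /
        ‖r ^ (n + 1) * (C / 2 ^ (n ^ 2))‖) = fun n : ℕ => (|r| / 2) * ((1 / 4 : ℝ)) ^ n := by
      funext n
      rw [norm_mul, norm_mul, norm_pow, norm_pow, norm_div, norm_div, norm_pow, norm_pow]
      have hr' : ‖r‖ ≠ 0 := by simpa using hr
      have hC' : ‖C‖ ≠ 0 := by simpa using hC
      have h2 : ‖(2 : ℝ)‖ = 2 := by norm_num
      rw [h2, Real.norm_eq_abs r] at *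
      have e1 : (n + 1) ^ 2 = n ^ 2 + 2 * n + 1 := by ring
      rw [e1, pow_succ (2 : ℝ), pow_add (2 : ℝ), pow_mul (2 : ℝ)]
      have h4 : (1 / 4 : ℝ) ^ n = 1 / 4 ^ n := by rw [one_div, inv_pow, one_div]
      rw [h4]
      norm_num
      field_simp
      try ring
    rw [h1]
    have := (tendsto_pow_atTop_nhds_zero_of_lt_one (r := (1 / 4 : ℝ)) (by norm_num)
      (by norm_num)).const_mul (|r| / 2)
    simpa using this

theorem rank_one_annihilates {X : Type*} [NormedAddCommGroup X] [NormedSpace ℂ X]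
    [CompleteSpace X] (T : X →L[ℂ] X) (C : ℝ) (hT : ∀ n, ‖T ^ n‖ ≤ C / 2 ^ (n ^ 2))
    (φ : X →L[ℂ] ℂ) (x : X) (hs : spectrum ℂ (T + φ.smulRight x) ⊆ {0}) :
    ∀ z : ℂ, 1 - ∑' n, φ ((T ^ n) x) * z ^ (n + 1) ≠ 0 := by
  intro z hz
  rcases eq_or_ne z 0 with rfl | hz0
  · simp at hz
  have hsum : Summable fun n : ℕ => z ^ (n + 1) • (T ^ n) x := by
    apply Summable.of_norm_bounded ((summable_scalar C ‖z‖).mul_right ‖x‖)
    intro n
    rw [norm_smul, norm_pow, mul_assoc]
    gcongr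
    exact ((T ^ n).le_opNorm x).trans (mul_le_mul_of_nonneg_right (hT n) (norm_nonneg _))
  set y : X := ∑' n : ℕ, z ^ (n + 1) • (T ^ n) x with hy
  have hφ : φ y = 1 := by
    rw [hy, φ.map_tsum hsum]
    have : ∑' n, φ (z ^ (n + 1) • (T ^ n) x) = ∑' n, φ ((T ^ n) x) * z ^ (n + 1) := by
      congr 1
      funext n
      rw [map_smul, smul_eq_mul, mul_comm]
    rw [this]
    exact (sub_eq_zero.mp hz).symm
  have hTy : T y = ∑' n : ℕ, z ^ (n + 1) • (T ^ (n + 1)) x := by
    rw [hy, T.map_tsum hsum]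
    congr 1
    funext n
    rw [map_smul, pow_succ' T]
    rfl
  have hμy : z⁻¹ • y = x + T y := by
    have h1 : z⁻¹ • y = ∑' n : ℕ, z ^ n • (T ^ n) x := by
      rw [hy, ← hsum.tsum_const_smul]
      congr 1
      funext n
      rw [smul_smul, pow_succ', ← mul_assoc, inv_mul_cancel₀ hz0, one_mul]
    have hsum2 : Summable fun n : ℕ => z ^ n • (T ^ n) x := by
      have := hsum.const_smul z⁻¹
      refine this.congr fun n => ?_
      rw [smul_smul, pow_succ', ← mul_assoc, inv_mul_cancel₀ hz0, one_mul]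
    rw [h1, hsum2.tsum_eq_zero_add, hTy]
    simp
  have hmem : z⁻¹ ∈ spectrum ℂ (T + φ.smulRight x) := by
    rw [spectrum.mem_iff]
    intro hu
    obtain ⟨u, hu⟩ := hu
    have hv : (u : X →L[ℂ] X) y = 0 := by
      rw [hu]
      simp only [ContinuousLinearMap.sub_apply, ContinuousLinearMap.add_apply,
        ContinuousLinearMap.smulRight_apply, hφ, one_smul]
      rw [Algebra.algebraMap_eq_smul_one]
      simp only [ContinuousLinearMap.smul_apply, ContinuousLinearMap.one_apply]
      rw [hμy]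
      abel
    have hy0 : y = 0 := by
      have h2 : ((↑u⁻¹ : X →L[ℂ] X) * (u : X →L[ℂ] X)) y = 0 := by
        rw [ContinuousLinearMap.mul_apply, hv, map_zero]
      rw [Units.inv_mul] at h2
      simpa using h2
    rw [hy0, map_zero] at hφ
    exact zero_ne_one hφ
  have := hs hmem
  simp only [Set.mem_singleton_iff, inv_eq_zero] at this
  exact hz0 this

theorem not_main_of (X : Type) [NormedAddCommGroup X] [NormedSpace ℂ X] [CompleteSpace X]
    [TopologicalSpace.SeparableSpace X] (hX : ¬ FiniteDimensional ℂ X) (T : X →L[ℂ] X) (C : ℝ)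
    (hT : ∀ n, ‖T ^ n‖ ≤ C / 2 ^ (n ^ 2))
    (hcyc : ∀ x : X, x ≠ 0 →
      Dense ((Submodule.span ℂ (Set.range fun n : ℕ => (T ^ n) x) : Submodule ℂ X) : Set X))
    (hkey : ∀ (c : ℕ → ℂ) (C : ℝ), (∀ n, ‖c n‖ ≤ C / 2 ^ (n ^ 2)) →
      (∀ z : ℂ, 1 - ∑' n, c n * z ^ (n + 1) ≠ 0) → ∀ n, c n = 0) :
    spectrum ℂ T = {0} ∧ ∀ F : X →L[ℂ] X,
      Module.finrank ℂ (LinearMap.range (F : X →ₗ[ℂ] X)) = 1 → spectrum ℂ (T + F) ≠ {0} := by
  haveI hnt : Nontrivial X := by
    by_contra h
    rw [not_nontrivial_iff_subsingleton] at h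
    exact hX inferInstance
  have hC : 0 ≤ C := by
    have := (norm_nonneg _).trans (hT 0)
    simpa using this
  constructor
  · apply Set.Subset.antisymm
    · intro μ hμ
      by_contra hne
      have hμ0 : 0 < ‖μ‖ := by simpa using hne
      have hle : ∀ n : ℕ, ‖μ‖ ^ n ≤ C / 2 ^ (n ^ 2) := by
        intro n
        have h1 : μ ^ n ∈ spectrum ℂ (T ^ n) := spectrum.pow_mem_pow T n hμ
        have h2 := spectrum.norm_le_norm_of_mem h1
        rw [norm_pow] at h2
        exact h2.trans (hT n)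
      -- (‖μ‖ * 2 ^ n) ^ n ≤ C
      obtain ⟨N, hN⟩ := pow_unbounded_of_one_lt (2 / ‖μ‖) (one_lt_two (α := ℝ))
      obtain ⟨M, hM⟩ := pow_unbounded_of_one_lt C (one_lt_two (α := ℝ))
      set n := max N M with hn
      have h3 := hle n
      rw [le_div_iff₀ (by positivity), sq, pow_mul, ← mul_pow] at h3
      have h4 : 2 ≤ ‖μ‖ * 2 ^ n := by
        have : 2 / ‖μ‖ ≤ 2 ^ n :=
          hN.le.trans (pow_le_pow_right₀ one_le_two (le_max_left _ _))
        rw [div_le_iff₀ hμ0] at this
        linarith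
      have h5 : (2 : ℝ) ^ n ≤ C := (pow_le_pow_left₀ (by norm_num) h4 n).trans h3
      have h6 : (2 : ℝ) ^ M ≤ 2 ^ n := pow_le_pow_right₀ one_le_two (le_max_right _ _)
      linarith
    · intro μ hμ
      rw [Set.mem_singleton_iff] at hμ
      subst hμ
      obtain ⟨ν, hν⟩ := spectrum.nonempty T
      -- every element is zero, by the same argument
      have : ν = 0 := by
        by_contra hne
        have hμ0 : 0 < ‖ν‖ := by simpa using hne
        have hle : ∀ n : ℕ, ‖ν‖ ^ n ≤ C / 2 ^ (n ^ 2) := by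
          intro n
          have h1 : ν ^ n ∈ spectrum ℂ (T ^ n) := spectrum.pow_mem_pow T n hν
          have h2 := spectrum.norm_le_norm_of_mem h1
          rw [norm_pow] at h2
          exact h2.trans (hT n)
        obtain ⟨N, hN⟩ := pow_unbounded_of_one_lt (2 / ‖ν‖) (one_lt_two (α := ℝ))
        obtain ⟨M, hM⟩ := pow_unbounded_of_one_lt C (one_lt_two (α := ℝ))
        set n := max N M with hn
        have h3 := hle n
        rw [le_div_iff₀ (by positivity), sq, pow_mul, ← mul_pow] at h3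
        have h4 : 2 ≤ ‖ν‖ * 2 ^ n := by
          have : 2 / ‖ν‖ ≤ 2 ^ n :=
            hN.le.trans (pow_le_pow_right₀ one_le_two (le_max_left _ _))
          rw [div_le_iff₀ hμ0] at this
          linarith
        have h5 : (2 : ℝ) ^ n ≤ C := (pow_le_pow_left₀ (by norm_num) h4 n).trans h3
        have h6 : (2 : ℝ) ^ M ≤ 2 ^ n := pow_le_pow_right₀ one_le_two (le_max_right _ _)
        linarith
      exact this ▸ hν
  · intro F hF hspec
    obtain ⟨⟨v, hv⟩, hv0, hvw⟩ := finrank_eq_one_iff'.mp hF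
    have hv0' : v ≠ 0 := fun h => hv0 (by simp [h])
    obtain ⟨g, -, hg⟩ := exists_dual_vector ℂ v (norm_ne_zero_iff.mpr hv0')
    have hgv : g v ≠ 0 := by
      rw [hg]
      simpa using hv0'
    set φ : X →L[ℂ] ℂ := (g v)⁻¹ • (g.comp F) with hφ
    have hFφ : F = φ.smulRight v := by
      ext y
      obtain ⟨c, hc⟩ := hvw ⟨F y, ⟨y, rfl⟩⟩
      have hc' : c • v = F y := congrArg Subtype.val hc
      have : φ y = c := by
        rw [hφ]
        simp only [ContinuousLinearMap.smul_apply, ContinuousLinearMap.comp_apply, smul_eq_mul]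
        rw [← hc', map_smul, smul_eq_mul]
        field_simp
      rw [ContinuousLinearMap.smulRight_apply, this, hc']
    rw [hFφ] at hspec
    have hann := rank_one_annihilates T C hT φ v hspec.subset
    have hc := hkey (fun n => φ ((T ^ n) v)) (‖φ‖ * ‖v‖ * C) (by
      intro n
      calc ‖φ ((T ^ n) v)‖ ≤ ‖φ‖ * ‖(T ^ n) v‖ := φ.le_opNorm _
        _ ≤ ‖φ‖ * (‖T ^ n‖ * ‖v‖) := by gcongr; exact (T ^ n).le_opNorm v
        _ ≤ ‖φ‖ * (C / 2 ^ (n ^ 2) * ‖v‖) := by gcongr; exact hT n
        _ = ‖φ‖ * ‖v‖ * C / 2 ^ (n ^ 2) := by ring) hann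
    have hdense := hcyc v hv0'
    have hker : ((Submodule.span ℂ (Set.range fun n : ℕ => (T ^ n) v) : Submodule ℂ X) : Set X)
        ⊆ {w | φ w = 0} := by
      intro w hw
      have : Submodule.span ℂ (Set.range fun n : ℕ => (T ^ n) v) ≤
          LinearMap.ker (φ : X →ₗ[ℂ] ℂ) := by
        rw [Submodule.span_le]
        rintro _ ⟨n, rfl⟩
        exact hc n
      exact this hw
    have hzero : ∀ w, φ w = 0 := by
      intro w
      have hclosed : IsClosed {w | φ w = 0} := isClosed_eq φ.continuous continuous_const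
      have : closure ((Submodule.span ℂ (Set.range fun n : ℕ => (T ^ n) v) : Submodule ℂ X) :
          Set X) ⊆ {w | φ w = 0} := closure_minimal hker hclosed
      exact this (hdense w)
    obtain ⟨y, hy⟩ := hv
    apply hv0'
    rw [← hy]
    show F y = 0
    rw [hFφ, ContinuousLinearMap.smulRight_apply, hzero, zero_smul]

end Pool.Agent.W347.RT
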